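import Pool.Agent.H626R2.Loc.GDefs
import Pool.Agent.H862R2.LocC1d

/-!
# S2: the coefficients of `ren s σ` for products with a sparse factor of bounded individual degree
-/

set_option autoImplicit false

namespace Pool.Agent.H626R2.Loc

open MvPolynomial

namespace S2

variable {K : Type} [Field K] {n : ℕ}

theorem ren_monomial {r : ℕ} (s : Fin r → Fin n) (hs : Function.Injective s) (m : Fin n →₀ ℕ)
    (c : K) : ren s (monomial m c) =
      monomial (Finsupp.equivFunOnFinite.symm fun b => m (s b))
        (monomial (m.filter fun i => ¬ ∃ b, s b = i) c) := by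
  classical
  set I : Finset (Fin n) := Finset.univ.image s with hI
  have hmem : ∀ i, i ∈ I ↔ ∃ b, s b = i := by intro i; simp [hI]
  rw [monomial_eq (R := K), map_mul, Finsupp.prod_fintype _ _ (fun i => pow_zero _), map_prod,
    ← Finset.prod_mul_prod_compl I, hI, Finset.prod_image (fun a _ b _ h => hs h), ← hI]
  rw [monomial_eq (R := MvPolynomial (Fin n) K), Finsupp.prod_fintype _ _ (fun i => pow_zero _),
    monomial_eq (R := K), Finsupp.prod_fintype _ _ (fun i => pow_zero _),
    ← Finset.prod_mul_prod_compl I (fun i => (X i : MvPolynomial (Fin n) K) ^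
      ((m.filter fun i => ¬ ∃ b, s b = i) i))]
  have h1 : ∏ i ∈ I, (X i : MvPolynomial (Fin n) K) ^ ((m.filter fun i => ¬ ∃ b, s b = i) i)
      = 1 := by
    apply Finset.prod_eq_one
    intro i hi
    rw [Finsupp.filter_apply_neg, pow_zero]
    exact fun h => h ((hmem i).mp hi)
  have h2 : ∏ i ∈ Iᶜ, (X i : MvPolynomial (Fin n) K) ^ ((m.filter fun i => ¬ ∃ b, s b = i) i)
      = ∏ i ∈ Iᶜ, (X i : MvPolynomial (Fin n) K) ^ m i := by
    apply Finset.prod_congr rfl
    intro i hi
    rw [Finsupp.filter_apply_pos]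
    exact fun h => Finset.mem_compl.mp hi ((hmem i).mpr h)
  have h3 : ∏ b, ren s (X (s b) ^ m (s b)) =
      ∏ b, (X b : MvPolynomial (Fin r) (MvPolynomial (Fin n) K)) ^ m (s b) := by
    apply Finset.prod_congr rfl
    intro b _
    rw [map_pow, C1d.ren_X_alive s hs]
  have h4 : ∏ i ∈ Iᶜ, ren s (X i ^ m i) =
      C (∏ i ∈ Iᶜ, (X i : MvPolynomial (Fin n) K) ^ m i) := by
    rw [map_prod]
    apply Finset.prod_congr rfl
    intro i hi
    rw [map_pow, C1d.ren_X_dead s i (fun h => Finset.mem_compl.mp hi ((hmem i).mpr h)), map_pow]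
  have h5 : ren s (C c : MvPolynomial (Fin n) K) = C (C c) := by
    rw [← algebraMap_eq, AlgHom.commutes]
    rfl
  rw [h1, h2, h3, h4, h5, one_mul, map_mul]
  simp only [Finsupp.equivFunOnFinite_symm_apply_apply]
  ring

/-- the exponents which occur in `ren s q` -/
theorem ren_supp {r : ℕ} (s : Fin r → Fin n) (hs : Function.Injective s)
    (q : MvPolynomial (Fin n) K) (α : Fin r →₀ ℕ) (β : Fin n →₀ ℕ)
    (h : coeff β (coeff α (ren s q)) ≠ 0) :
    ∃ m ∈ q.support, (∀ b, α b = m (s b)) ∧ β = m.filter fun i => ¬ ∃ b, s b = i := by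
  classical
  have h1 : ren s q = ∑ m ∈ q.support, ren s (monomial m (coeff m q)) := by
    rw [← map_sum, ← q.as_sum]
  rw [h1, coeff_sum, coeff_sum] at h
  obtain ⟨m, hm, h2⟩ := Finset.exists_ne_zero_of_sum_ne_zero h
  refine ⟨m, hm, ?_⟩
  rw [ren_monomial s hs, coeff_monomial] at h2
  split_ifs at h2 with h3
  · rw [coeff_monomial] at h2
    split_ifs at h2 with h4
    · refine ⟨fun b => ?_, h4.symm⟩
      rw [← h3]
      simp
    · exact absurd rfl h2
  · exact absurd (by simp) h2

theorem card_support_coeff {r : ℕ} (s : Fin r → Fin n) (hs : Function.Injective s)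
    (q : MvPolynomial (Fin n) K) (α : Fin r →₀ ℕ) :
    (coeff α (ren s q)).support.card ≤ q.support.card := by
  classical
  refine (Finset.card_le_card ?_).trans
    (Finset.card_image_le (f := fun m : Fin n →₀ ℕ => m.filter fun i => ¬ ∃ b, s b = i))
  intro β hβ
  obtain ⟨m, hm, _, h2⟩ := ren_supp s hs q α β (mem_support_iff.mp hβ)
  rw [Finset.mem_image]
  exact ⟨m, hm, h2.symm⟩

theorem degreeOf_coeff {r : ℕ} (s : Fin r → Fin n) (hs : Function.Injective s)
    (q : MvPolynomial (Fin n) K) {d : ℕ} (hq : ∀ m, q.degreeOf m ≤ d) (α : Fin r →₀ ℕ)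
    (i : Fin n) : (coeff α (ren s q)).degreeOf i ≤ d := by
  classical
  rw [degreeOf_le_iff]
  intro β hβ
  obtain ⟨m, hm, _, h2⟩ := ren_supp s hs q α β (mem_support_iff.mp hβ)
  have h3 : m i ≤ d := (degreeOf_le_iff.mp (hq i)) m hm
  rw [h2, Finsupp.filter_apply]
  split_ifs <;> omega

theorem exp_le {r : ℕ} (s : Fin r → Fin n) (hs : Function.Injective s)
    (q : MvPolynomial (Fin n) K) {d : ℕ} (hq : ∀ m, q.degreeOf m ≤ d) (α : Fin r →₀ ℕ)
    (h : coeff α (ren s q) ≠ 0) (b : Fin r) : α b ≤ d := by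
  obtain ⟨β, hβ⟩ := ne_zero_iff.mp h
  obtain ⟨m, hm, h1, _⟩ := ren_supp s hs q α β hβ
  rw [h1 b]
  exact (degreeOf_le_iff.mp (hq (s b))) m hm

theorem exists_index {r k : ℕ} (hr : r ≤ k) (d : ℕ) :
    ∃ f : Fin ((d + 1) ^ k) → (Fin r →₀ ℕ),
      ∀ α : Fin r →₀ ℕ, (∀ b, α b ≤ d) → ∃ i, f i = α := by
  refine ⟨fun i => Finsupp.equivFunOnFinite.symm fun b =>
    ((finFunctionFinEquiv.symm i) (Fin.castLE hr b) : ℕ), fun α hα => ?_⟩
  refine ⟨finFunctionFinEquiv fun j => if h : (j : ℕ) < r then
    ⟨α ⟨j, h⟩, Nat.lt_succ_of_le (hα _)⟩ else 0, ?_⟩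
  ext b
  simp

end S2

open S2

variable {K : Type} [Field K] {n : ℕ}

/-- S2. -/
theorem coeff_ren_prodS {r k : ℕ} (hr : r ≤ k) (s : Fin r → Fin n) (hs : Function.Injective s)
    {L sp d : ℕ} {σ : MvPolynomial (Fin n) K} (hσ : ProdS L sp d σ) (hL : 1 ≤ L) :
    ∃ F : Fin ((d + 1) ^ k) → MvPolynomial (Fin n) K, (∀ i, ProdS L sp d (F i)) ∧
      ∀ m, (ren s σ).coeff m ∈ Algebra.adjoin K (Set.range F) := by
  classical
  obtain ⟨u, q, hu, hq1, hq2, rfl⟩ := hσ
  obtain ⟨f, hf⟩ := exists_index hr d
  set I : Finset (Fin n) := Finset.univ.image s with hI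
  set U : MvPolynomial (Fin n) K := ∏ m ∈ Iᶜ, Polynomial.aeval (X m) (u m) with hU
  refine ⟨fun i => U * coeff (f i) (ren s q), ?_, ?_⟩
  · intro i
    refine ⟨fun m => if m ∈ I then 1 else u m, coeff (f i) (ren s q), ?_,
      (card_support_coeff s hs q (f i)).trans hq1, degreeOf_coeff s hs q hq2 (f i), ?_⟩
    · intro m
      dsimp only
      split_ifs
      · rw [← Polynomial.C_1, Polynomial.support_C one_ne_zero, Finset.card_singleton]
        exact hL
      · exact hu m
    · change U * coeff (f i) (ren s q) = _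
      congr 1
      rw [← Finset.prod_mul_prod_compl I
        (fun m => Polynomial.aeval (X m : MvPolynomial (Fin n) K) (if m ∈ I then 1 else u m))]
      have h1 : ∏ m ∈ I, Polynomial.aeval (X m : MvPolynomial (Fin n) K) (if m ∈ I then 1 else u m)
          = 1 := by
        apply Finset.prod_eq_one
        intro m hm
        rw [if_pos hm, map_one]
      rw [h1, one_mul, hU]
      apply Finset.prod_congr rfl
      intro m hm
      rw [if_neg (Finset.mem_compl.mp hm)]
  · intro m
    -- the product of the univariate polynomials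
    have h1 : ren s (∏ m, Polynomial.aeval (X m : MvPolynomial (Fin n) K) (u m))
        = MvPolynomial.map (C : K →+* MvPolynomial (Fin n) K)
            (∏ b, Polynomial.aeval (X b : MvPolynomial (Fin r) K) (u (s b))) * C U := by
      rw [← Finset.prod_mul_prod_compl I, map_mul]
      congr 1
      · rw [hI, Finset.prod_image (fun a _ b _ h => hs h), map_prod, map_prod]
        apply Finset.prod_congr rfl
        intro b _
        rw [← Polynomial.aeval_algHom_apply, C1d.ren_X_alive s hs]
        have h2 : (MvPolynomial.map (C : K →+* MvPolynomial (Fin n) K)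
            (Polynomial.aeval (X b : MvPolynomial (Fin r) K) (u (s b))))
            = MvPolynomial.mapAlgHom (Algebra.ofId K (MvPolynomial (Fin n) K))
              (Polynomial.aeval (X b : MvPolynomial (Fin r) K) (u (s b))) := rfl
        rw [h2, ← Polynomial.aeval_algHom_apply]
        congr 1
        simp [MvPolynomial.mapAlgHom_apply]
      · rw [hU, map_prod, map_prod]
        apply Finset.prod_congr rfl
        intro i hi
        rw [← Polynomial.aeval_algHom_apply, C1d.ren_X_dead s i]
        · have h2 : (C (Polynomial.aeval (X i : MvPolynomial (Fin n) K) (u i)) :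
              MvPolynomial (Fin r) (MvPolynomial (Fin n) K))
              = IsScalarTower.toAlgHom K (MvPolynomial (Fin n) K)
                (MvPolynomial (Fin r) (MvPolynomial (Fin n) K))
                (Polynomial.aeval (X i : MvPolynomial (Fin n) K) (u i)) := rfl
          rw [h2, ← Polynomial.aeval_algHom_apply]
          rfl
        · rintro ⟨b, hb⟩
          apply Finset.mem_compl.mp hi
          rw [hI, ← hb]
          exact Finset.mem_image_of_mem s (Finset.mem_univ b)
    rw [map_mul, h1, mul_assoc, coeff_mul]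
    apply Subalgebra.sum_mem
    rintro ⟨a, b⟩ _
    apply Subalgebra.mul_mem
    · rw [coeff_map]
      exact Subalgebra.algebraMap_mem _ _
    · rw [coeff_C_mul]
      by_cases hb : coeff b (ren s q) = 0
      · rw [hb, mul_zero]; exact Subalgebra.zero_mem _
      · obtain ⟨i, hi⟩ := hf b (exp_le s hs q hq2 b hb)
        apply Algebra.subset_adjoin
        exact ⟨i, by simp only [hi]⟩

end Pool.Agent.H626R2.Loc
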